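import Pool.Agent.L5helper40.AF.Ch

/-!
# Sums of characters over sets that are closed under conjugation are integers
-/

set_option autoImplicit false

namespace Pool.Agent.L5helper21.UA

open Pool.Agent.L5helper40.AF

section G

variable {G : Type*} [CommGroup G] [Fintype G]

open Classical in
lemma sum_sub (ω : G →* ℂ) (Z : Subgroup G) : ∃ n : ℤ, ∑ a : G, (if a ∈ Z then ω a else 0) = n := by
  by_cases h0 : ∀ a ∈ Z, ω a = 1
  · refine ⟨∑ a : G, (if a ∈ Z then 1 else 0), ?_⟩
    push_cast
    refine Finset.sum_congr rfl fun a _ => ?_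
    split_ifs with h1
    · exact h0 a h1
    · rfl
  · push Not at h0
    obtain ⟨a₀, h1, h2⟩ := h0
    refine ⟨0, ?_⟩
    have h3 : ∑ a : G, (if a ∈ Z then ω a else 0) = ω a₀ * ∑ a : G, (if a ∈ Z then ω a else 0) := by
      rw [Finset.mul_sum, ← Equiv.sum_comp (Equiv.mulLeft a₀)]
      refine Finset.sum_congr rfl fun a _ => ?_
      rw [Equiv.coe_mulLeft]
      by_cases h : a ∈ Z
      · rw [if_pos h, if_pos (Z.mul_mem h1 h), map_mul]
      · rw [if_neg h, if_neg (fun h' => h ((Z.mul_mem_cancel_left h1).1 h')), mul_zero]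
    have h4 : (1 - ω a₀) * ∑ a : G, (if a ∈ Z then ω a else 0) = 0 := by
      rw [sub_mul, one_mul, ← h3, sub_self]
    rcases mul_eq_zero.1 h4 with h5 | h5
    · exact absurd (sub_eq_zero.1 h5).symm h2
    · rw [h5]; simp

open Classical in
lemma sum_gen (ω : G →* ℂ) (Z : Subgroup G) :
    ∃ n : ℤ, ∑ a : G with Subgroup.zpowers a = Z, ω a = n := by
  induction Z using WellFoundedLT.induction with
  | _ Z ih =>
    obtain ⟨n, hn⟩ := sum_sub ω Z
    choose! m hm using ih
    refine ⟨n - ∑ Z' : Subgroup G with Z' < Z, m Z', ?_⟩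
    have h1 : ∑ a : G, (if a ∈ Z then ω a else 0) =
        ∑ Z' : Subgroup G, ∑ a : G with Subgroup.zpowers a = Z', (if a ∈ Z then ω a else 0) :=
      (Finset.sum_fiberwise Finset.univ (fun a : G => Subgroup.zpowers a) _).symm
    have h2 : ∀ Z' : Subgroup G, ∑ a : G with Subgroup.zpowers a = Z', (if a ∈ Z then ω a else 0) =
        if Z' ≤ Z then ∑ a : G with Subgroup.zpowers a = Z', ω a else 0 := by
      intro Z'
      split_ifs with h
      · refine Finset.sum_congr rfl fun a ha => ?_
        rw [if_pos]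
        apply h
        rw [← (Finset.mem_filter.1 ha).2]
        exact Subgroup.mem_zpowers a
      · refine Finset.sum_eq_zero fun a ha => ?_
        rw [if_neg]
        intro h3
        apply h
        rw [← (Finset.mem_filter.1 ha).2]
        exact Subgroup.zpowers_le.2 h3
    rw [hn] at h1
    simp only [h2] at h1
    rw [← Finset.sum_filter] at h1
    have h3 : (Finset.univ.filter fun Z' : Subgroup G => Z' ≤ Z) =
        insert Z (Finset.univ.filter fun Z' : Subgroup G => Z' < Z) := by
      ext Z'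
      simp only [Finset.mem_filter, Finset.mem_univ, true_and, Finset.mem_insert]
      rw [le_iff_lt_or_eq, or_comm]
    rw [h3, Finset.sum_insert (by simp)] at h1
    have h4 : ∑ Z' : Subgroup G with Z' < Z, ∑ a : G with Subgroup.zpowers a = Z', ω a =
        ((∑ Z' : Subgroup G with Z' < Z, m Z' : ℤ) : ℂ) := by
      push_cast
      exact Finset.sum_congr rfl fun Z' hZ' => hm Z' (Finset.mem_filter.1 hZ').2
    rw [h4] at h1
    push_cast at h1 ⊢
    rw [h1]
    ring

lemma sum_class (ω : G →* ℂ) (P : G → Prop) [DecidablePred P]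
    (hP : ∀ a b : G, Subgroup.zpowers a = Subgroup.zpowers b → P a → P b) :
    ∃ n : ℤ, ∑ a : G, (if P a then ω a else 0) = n := by
  classical
  choose m hm using sum_gen ω
  refine ⟨∑ Z : Subgroup G, (if ∃ a, Subgroup.zpowers a = Z ∧ P a then m Z else 0), ?_⟩
  rw [← Finset.sum_fiberwise Finset.univ (fun a : G => Subgroup.zpowers a)]
  push_cast
  refine Finset.sum_congr rfl fun Z _ => ?_
  split_ifs with h
  · obtain ⟨a, ha, hPa⟩ := h
    rw [← hm]
    refine Finset.sum_congr rfl fun b hb => ?_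
    rw [if_pos (hP a b (ha.trans (Finset.mem_filter.1 hb).2.symm) hPa)]
  · refine Finset.sum_eq_zero fun b hb => ?_
    rw [if_neg (fun h' => h ⟨b, (Finset.mem_filter.1 hb).2, h'⟩)]

end G

variable {q : ℕ} [NeZero q]

/-- the characters whose conductor divides `c` -/
def condSub (q : ℕ) [NeZero q] (c : ℕ) : Subgroup (DirichletCharacter ℂ q) where
  carrier := {χ | χ.conductor ∣ c}
  one_mem' := by
    show (1 : DirichletCharacter ℂ q).conductor ∣ c
    rw [DirichletCharacter.conductor_one]
    exact one_dvd _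
  mul_mem' := fun {a b} ha hb =>
    (DirichletCharacter.conductor_mul_dvd_lcm_conductor a b).trans (Nat.lcm_dvd ha hb)
  inv_mem' := fun {a} ha => by
    show a⁻¹.conductor ∣ c
    rw [DirichletCharacter.conductor_inv]
    exact ha

lemma conductor_eq {χ ψ : DirichletCharacter ℂ q} (h : Subgroup.zpowers χ = Subgroup.zpowers ψ) :
    χ.conductor = ψ.conductor := by
  have key : ∀ {χ ψ : DirichletCharacter ℂ q}, Subgroup.zpowers χ = Subgroup.zpowers ψ →
      χ.conductor ∣ ψ.conductor := by
    intro χ ψ h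
    have h1 : Subgroup.zpowers ψ ≤ condSub q ψ.conductor :=
      Subgroup.zpowers_le.2 (dvd_refl ψ.conductor)
    rw [← h] at h1
    exact h1 (Subgroup.mem_zpowers χ)
  exact Nat.dvd_antisymm (key h) (key h.symm)

/-- a set of characters which contains with `χ` the conjugates of `χ`, that is, the generators of the
group generated by `χ` -/
def IsClosed (Y : Set (DirichletCharacter ℂ q)) : Prop :=
  ∀ χ ∈ Y, ∀ ψ, Subgroup.zpowers ψ = Subgroup.zpowers χ → ψ ∈ Y

open Classical in
/-- **integrality** -/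
lemma sum_cond_closed (X : Subgroup (DirichletCharacter ℂ q)) [Fintype X]
    (Y : Set (DirichletCharacter ℂ q)) (hY : IsClosed Y) (h : (ZMod q)ˣ) (c : ℕ) :
    ∃ n : ℤ, ∑ χ : X, (if χ.1.conductor = c ∧ χ.1 ∈ Y then χ.1 h else 0) = n := by
  let ω : X →* ℂ :=
    { toFun := fun χ => χ.1 h
      map_one' := MulChar.one_apply_coe h
      map_mul' := fun a b => by rw [Subgroup.coe_mul, MulChar.mul_apply] }
  refine sum_class ω (fun χ : X => χ.1.conductor = c ∧ χ.1 ∈ Y) ?_
  intro a b hab hPa
  have h1 : Subgroup.zpowers a.1 = Subgroup.zpowers b.1 := by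
    have h2 := congrArg (Subgroup.map X.subtype) hab
    rw [MonoidHom.map_zpowers, MonoidHom.map_zpowers] at h2
    exact h2
  refine ⟨?_, hY a.1 hPa.2 b.1 h1.symm⟩
  rw [← conductor_eq h1]
  exact hPa.1

lemma IsClosed.inv {Y : Set (DirichletCharacter ℂ q)} (hY : IsClosed Y) (χ : DirichletCharacter ℂ q) :
    χ⁻¹ ∈ Y ↔ χ ∈ Y := by
  constructor
  · intro h
    exact hY _ h χ (Subgroup.zpowers_inv).symm
  · intro h
    exact hY _ h χ⁻¹ Subgroup.zpowers_inv

end Pool.Agent.L5helper21.UA
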