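import Pool.Agent.L5helper40.AF.Ch

/-!
# The main inequality with the order of the group of characters instead of the order of the units
-/

set_option autoImplicit false

namespace Pool.Agent.L5helper21.UA

open Pool.Agent.K4H13.CV Pool.Agent.L5helper40.AF

variable {q : ℕ} [NeZero q]

open Matrix in
/-- orthogonality of the columns -/
lemma col_orth (X : Subgroup (DirichletCharacter ℂ q)) [Fintype X] [DecidableEq X]
    (g : X → (ZMod q)ˣ)
    (hg : ∀ j j' : X, ∑ χ : X, (χ.1 (g j))⁻¹ * (starRingEnd ℂ) ((χ.1 (g j'))⁻¹) =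
        if j = j' then ((Fintype.card X : ℝ) : ℂ) else 0) (ψ χ : X) :
    ∑ j : X, (ψ.1 (g j))⁻¹ * χ.1 (g j) = if ψ = χ then (Fintype.card X : ℂ) else 0 := by
  have hc0 : (Fintype.card X : ℂ) ≠ 0 := by
    have : 0 < Fintype.card X := Fintype.card_pos
    exact_mod_cast this.ne'
  set A : Matrix X X ℂ := Matrix.of fun j χ => (χ.1 (g j))⁻¹ with hA
  have h1 : A * ((Fintype.card X : ℂ)⁻¹ • Aᴴ) = 1 := by
    ext j j'
    rw [Matrix.mul_apply]
    have e1 : ∀ χ : X, A j χ * ((Fintype.card X : ℂ)⁻¹ • Aᴴ) χ j' =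
        (Fintype.card X : ℂ)⁻¹ * ((χ.1 (g j))⁻¹ * (starRingEnd ℂ) ((χ.1 (g j'))⁻¹)) := by
      intro χ
      rw [Matrix.smul_apply, Matrix.conjTranspose_apply, smul_eq_mul, hA]
      simp only [Matrix.of_apply]
      rw [← starRingEnd_apply]
      ring
    simp only [e1]
    rw [← Finset.mul_sum, hg, Matrix.one_apply]
    split_ifs with h
    · push_cast
      exact inv_mul_cancel₀ hc0
    · rw [mul_zero]
  have h2 : ((Fintype.card X : ℂ)⁻¹ • Aᴴ) * A = 1 := mul_eq_one_comm.1 h1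
  have h3 := congrFun (congrFun h2 χ) ψ
  rw [Matrix.mul_apply, Matrix.one_apply] at h3
  have e2 : ∀ j : X, ((Fintype.card X : ℂ)⁻¹ • Aᴴ) χ j * A j ψ =
      (Fintype.card X : ℂ)⁻¹ * ((ψ.1 (g j))⁻¹ * χ.1 (g j)) := by
    intro j
    rw [Matrix.smul_apply, Matrix.conjTranspose_apply, smul_eq_mul, hA]
    simp only [Matrix.of_apply]
    rw [← starRingEnd_apply, chi_conj_inv]
    ring
  simp only [e2] at h3
  rw [← Finset.mul_sum] at h3
  have h4 : ∑ j : X, (ψ.1 (g j))⁻¹ * χ.1 (g j) = (Fintype.card X : ℂ) * (if χ = ψ then 1 else 0) := by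
    rw [← h3, ← mul_assoc, mul_inv_cancel₀ hc0, one_mul]
  rw [h4]
  by_cases h : ψ = χ
  · rw [if_pos h, if_pos h.symm, mul_one]
  · rw [if_neg h, if_neg (Ne.symm h), mul_zero]

section Lat

variable {B : Type*} [Fintype B] [DecidableEq B] (X : Subgroup (DirichletCharacter ℂ q)) [Fintype X]
  [DecidableEq X]

/-- **The main inequality.** -/
theorem main_ineq_card (L : AddSubgroup (B → ℂ)) (κ : ℝ) (hκ0 : 0 < κ)
    (hκ : ∀ v : B ⊕ B → B → ℂ, (∀ i, v i ∈ L) → (RM v).det ≠ 0 → κ ≤ |(RM v).det|)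
    {ι : Type*} [Finite ι] (s : ι → B → ℂ) (hs : ∀ i, s i ∈ L) (H : ℝ) (hH : 1 ≤ H)
    (hsH : ∀ i f, ‖s i f‖ ≤ H) (hspan : Submodule.span ℝ (Set.range s) = ⊤)
    (T : Set (B → ℝ)) (hTH : ∀ t ∈ T, ∀ f, |t f| ≤ H)
    (hT : ∀ w : B → ℂ, (∀ t ∈ T, ∑ f, w f * (t f : ℂ) = 0) → w = 0)
    (y : X → B → ℂ) (θ : X → ℂ) (hθ : ∀ χ, ‖θ χ‖ = 1)
    (hyθ : ∀ χ f, y χ⁻¹ f = θ χ * (starRingEnd ℂ) (y χ f))
    (hy : ∀ t ∈ T, ∀ g : (ZMod q)ˣ, (fun f => (t f : ℂ) * ∑ χ : X, χ.1 g * y χ f) ∈ L) :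
    κ ^ Fintype.card X ≤ ((2 * Fintype.card (B × X) : ℕ) : ℝ) ^ (4 * Fintype.card (B × X)) *
      (2 * H) ^ (2 * Fintype.card (B × X)) *
      ∏ p : B × X with y p.2 p.1 ≠ 0, ‖(Fintype.card X : ℂ) * y p.2 p.1‖ := by
  classical
  obtain ⟨hlow, g, hg⟩ := Lam_low X L κ hκ0 hκ s hs hspan
  set F : Finset (B × X) := Finset.univ.filter fun p => y p.2 p.1 ≠ 0 with hF
  have hq0 : (Fintype.card X : ℂ) ≠ 0 := by
    have : 0 < Fintype.card X := Fintype.card_pos
    exact_mod_cast this.ne'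
  obtain ⟨g', hg', -⟩ := exists_reps X
  -- the independent system
  obtain ⟨n, hn⟩ := exists_detK (F := F) (S := T × (ZMod q)ˣ)
    (fun r p => ((r.1.1 p.1.1 : ℝ) : ℂ) * (p.1.2.1 r.2)⁻¹) (by
      intro w hw
      obtain ⟨W, hW⟩ : ∃ W : B × X → ℂ, W = fun p => if h : p ∈ F then w ⟨p, h⟩ else 0 := ⟨_, rfl⟩
      have hW1 : ∀ p : F, W p.1 = w p := fun p => by rw [hW]; simp
      have hW0 : ∀ p, p ∉ F → W p = 0 := fun p hp => by rw [hW]; simp [hp]
      have h1 : ∀ χ : X, ∀ t ∈ T, ∑ f : B, W (f, χ) * (t f : ℂ) = 0 := by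
        intro χ t ht
        have h2 := chi_indep X (fun χ => ∑ f : B, W (f, χ) * (t f : ℂ))
          (fun h => by
            have h3 := hw (⟨t, ht⟩, h)
            rw [← h3]
            simp only [Finset.sum_mul]
            have h4 : ∑ χ : X, ∑ f : B, W (f, χ) * (t f : ℂ) * (χ.1 h)⁻¹ =
                ∑ p : B × X, W p * (t p.1 : ℂ) * (p.2.1 h)⁻¹ := by
              rw [Fintype.sum_prod_type_right]
            rw [h4, ← Finset.sum_subset (Finset.subset_univ F), ← Finset.sum_coe_sort F]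
            · refine Finset.sum_congr rfl fun p _ => ?_
              rw [hW1]
              ring
            · intro p _ hp
              rw [hW0 p hp]
              ring)
        exact congrFun h2 χ
      funext p
      have h2 := hT _ (h1 p.1.2)
      have h3 := congrFun h2 p.1.1
      rw [← hW1 p]
      exact h3)
  have key := detIneqC (Lam X L) (κ ^ Fintype.card X) hlow
    (fun (r : ι × X) (p : B × X) => s r.1 p.1 * (p.2.1 (g r.2))⁻¹)
    (fun r => mem_Lam X (hs r.1) (g r.2)) H hH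
    (fun r p => by
      rw [norm_mul, norm_inv, chi_norm, inv_one, mul_one]
      exact hsH r.1 p.1) hg F (fun p => (p.1, p.2⁻¹))
    (fun p hp => by
      rw [hF, Finset.mem_filter] at hp ⊢
      refine ⟨Finset.mem_univ _, ?_⟩
      show y p.2⁻¹ p.1 ≠ 0
      rw [hyθ]
      refine mul_ne_zero ?_ ?_
      · intro h0
        have := hθ p.2
        rw [h0] at this
        simp at this
      · exact (map_ne_zero _).2 hp.2)
    (fun p => by simp) (fun p => θ p.2) (fun p => hθ p.2)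
    (fun p => (Fintype.card X : ℂ) * y p.2 p.1)
    (fun p hp => mul_ne_zero hq0 (Finset.mem_filter.1 hp).2)
    (fun i p => (((n i).1.1 p.1.1 : ℝ) : ℂ) * (p.1.2.1 (n i).2)⁻¹) hn
    (fun i p => by
      rw [norm_mul, norm_inv, chi_norm, inv_one, mul_one, Complex.norm_real, Real.norm_eq_abs]
      exact hTH _ (n i).1.2 _)
    (fun i p => (((n i).1.1 p.1 : ℝ) : ℂ) * (p.2.1 (n i).2)⁻¹ * ((Fintype.card X : ℂ) * y p.2 p.1))
    ?_ (fun i p => rfl) ?_ ?_
  · exact key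
  · -- membership
    intro i
    have h1 : (fun p : B × X => (((n i).1.1 p.1 : ℝ) : ℂ) * (p.2.1 (n i).2)⁻¹ *
        ((Fintype.card X : ℂ) * y p.2 p.1)) = ∑ j : X, (fun p : B × X =>
          ((((n i).1.1 p.1 : ℝ) : ℂ) * ∑ χ : X, χ.1 (g' j) * y χ p.1) *
            (p.2.1 (g' j * (n i).2 : (ZMod q)ˣ))⁻¹) := by
      funext p
      rw [Finset.sum_apply]
      have h2 : ∀ j : X, ((((n i).1.1 p.1 : ℝ) : ℂ) * ∑ χ : X, χ.1 (g' j) * y χ p.1) *
          (p.2.1 (g' j * (n i).2 : (ZMod q)ˣ))⁻¹ = (((n i).1.1 p.1 : ℝ) : ℂ) * (p.2.1 (n i).2)⁻¹ *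
            ∑ χ : X, y χ p.1 * ((p.2.1 (g' j))⁻¹ * χ.1 (g' j)) := by
        intro j
        rw [chi_mul, mul_inv, Finset.mul_sum, Finset.mul_sum, Finset.sum_mul]
        refine Finset.sum_congr rfl fun χ _ => ?_
        ring
      simp only [h2]
      rw [← Finset.mul_sum, Finset.sum_comm]
      congr 1
      have h3 : ∀ χ : X, ∑ j : X, y χ p.1 * ((p.2.1 (g' j))⁻¹ * χ.1 (g' j)) =
          if p.2 = χ then y χ p.1 * (Fintype.card X : ℂ) else 0 := by
        intro χ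
        rw [← Finset.mul_sum, col_orth X g' hg']
        by_cases h : p.2 = χ
        · rw [if_pos h, if_pos h]
        · rw [if_neg h, if_neg h, mul_zero]
      simp only [h3]
      rw [Finset.sum_ite_eq]
      simp only [Finset.mem_univ, if_true]
      ring
    rw [h1]
    exact (Lam X L).sum_mem fun j _ => mem_Lam X (hy _ (n i).1.2 (g' j)) _
  · intro i p hp
    have h0 : y p.2 p.1 = 0 := by
      by_contra h
      exact hp (Finset.mem_filter.2 ⟨Finset.mem_univ _, h⟩)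
    rw [h0]
    ring
  · intro i p _
    have h1 : (p.2⁻¹ : X).1 (((n i).2 : (ZMod q)ˣ) : ZMod q) = (p.2.1 (n i).2)⁻¹ := by
      rw [Subgroup.coe_inv, inv_chi]
    have h2 : θ p.2 * (starRingEnd ℂ) (θ p.2) = 1 := by
      rw [Complex.mul_conj, Complex.normSq_eq_norm_sq, hθ]
      simp
    simp only [h1, hyθ, map_mul, Complex.conj_conj, map_inv₀, chi_conj, inv_inv, Complex.conj_ofReal,
      map_natCast]
    linear_combination (-(((n i).1.1 p.1 : ℝ) : ℂ) * (p.2.1 (n i).2)⁻¹ *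
      ((Fintype.card X : ℂ) * y p.2 p.1)) * h2

end Lat

end Pool.Agent.L5helper21.UA
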