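import Pool.Agent.L5helper21.UA.Y

/-!
# The product of the nonzero values, with a bound that does not depend on the conductor
-/

set_option autoImplicit false

open Complex Filter Topology Set UpperHalfPlane MatrixGroups CongruenceSubgroup ZMod

namespace Pool.Agent.L5helper21.UA

open Pool.Agent.TH940 (prim prim_deriv Fr prim_fricke mellin2)
open Pool.Agent.Y18.BSD
open Pool.Agent.K4H13.CV
open Pool.Agent.L5helper40.AF
open Pool.Agent.L5helper21.MS
open W388.LV (SF bf pet IsNewBasis)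

variable {N : ℕ} [NeZero N] {q : ℕ} [NeZero q]

open Classical in
theorem wy_prod (hN : N.Prime) (h2 : N ≠ 2) (hqN : q.Coprime N)
    (X : Subgroup (DirichletCharacter ℂ q)) [Fintype X] (Y : Set (DirichletCharacter ℂ q))
    (hY : IsClosed Y) {B : Finset (Cf2 N)} (hB : IsNewBasis N 2 B) :
    1 / ((N : ℝ) * Fintype.card X) ^ (330 * (B.card * Fintype.card X)) ≤
      ∏ p : B × X with p.2.1 ∈ Y ∧ ws p.2.1 p.2.1.conductor p.1.1 ≠ 0,
        ‖ws p.2.1 p.2.1.conductor p.1.1‖ := by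
  rcases Nat.eq_zero_or_pos B.card with h0 | hg
  · have he : IsEmpty B := by
      rw [Finset.card_eq_zero] at h0
      rw [h0]
      infer_instance
    rw [h0, zero_mul, mul_zero, pow_zero, Finset.filter_true_of_mem (fun p => he.elim p.1),
      Finset.univ_eq_empty, Finset.prod_empty]
    norm_num
  have hN3 := three_le hN h2
  have hN0 : (0 : ℝ) < N := by linarith
  have hN1 : (1 : ℝ) ≤ N := by linarith
  obtain ⟨δ, hδ1, hδ2⟩ := gen N hN
  choose sg0 hsg0 using hB.newf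
  set sg : B → ℝ := fun f => sg0 f.1 f.2 with hsgdef
  have hsg : ∀ f : B, W388.IsNewf N 2 f.1 (sg f) := fun f => hsg0 f.1 f.2
  have h4 : (1 : ℝ) ≤ (N : ℝ) ^ 4 := one_le_pow₀ hN1
  have hco3 : ∀ f : B, co f.1 2 - 3 ≠ 0 := by
    intro f h
    exact two red N hN h2 f.1 (sg f) (hsg f) (sub_eq_zero.1 h)
  have key := main_ineq_card X (LL B) (1 / (N : ℝ) ^ (296 * B.card)) (by positivity)
    (fun v hv hd => kappa hyp hN h2 hB hg v hv hd) (fun i => pv B (δ i)) (fun i => pv_mem B _)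
    (10 ^ 4 * (N : ℝ) ^ 4) (by linarith)
    (fun i f => by
      have e1 := per_bd f.1 (coef N hN f.1 (sg f) (hsg f)) (δ i) ((N : ℝ) ^ 2) (one_le_pow₀ hN1)
        (by
          have := hδ1 i
          rw [← Int.cast_abs]
          exact_mod_cast this)
      refine e1.trans ?_
      calc 8 * ((N : ℝ) ^ 2) ^ 2 = 8 * (N : ℝ) ^ 4 := by ring
        _ ≤ _ := by linarith)
    (span_short hyp hN h2 hB δ hδ2) (TT sg)
    (fun t ht f => by
      obtain ⟨n, hn1, hn2, h⟩ := ht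
      have h5 : |(co f.1 n).re| ≤ 10 ^ 4 * (N : ℝ) ^ 4 := by
        refine (Complex.abs_re_le_norm _).trans ((coef N hN f.1 (sg f) (hsg f) n).trans ?_)
        have e1 : ((n : ℕ) : ℝ) ≤ 100 * (N : ℝ) ^ 2 := by exact_mod_cast hn1
        calc ((n : ℕ) : ℝ) ^ 2 ≤ (100 * (N : ℝ) ^ 2) ^ 2 := by gcongr
          _ = _ := by ring
      rcases h with rfl | rfl
      · exact h5
      · rcases (hsg f).sign with h6 | h6
        · simp only [h6, one_mul]
          exact h5
        · simp only [h6, neg_mul, one_mul, abs_neg]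
          exact h5)
    (indepT hN hB sg hsg) (fun χ f => wy Y χ.1 f.1)
    (fun χ => χ.1 ((-1 : (ZMod q)ˣ) : ZMod q)) (fun χ => chi_norm _ _)
    (fun χ f => wy_conj hqN Y hY χ.1 (hsg f)) (fun t ht g => wy_mem hN h2 hqN X Y hY sg hsg t ht g)
  -- numerics
  set k : ℕ := Fintype.card X with hk
  have hk1 : 1 ≤ k := Fintype.card_pos
  have hk1R : (1 : ℝ) ≤ k := by exact_mod_cast hk1
  have hcard : Fintype.card (B × X) = B.card * k := by
    rw [Fintype.card_prod, Fintype.card_coe]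
  rw [hcard] at key
  set n : ℕ := B.card * k with hn
  have hc := card_le hyp hN h2 hB
  have s1 := (dimS hyp hN h2 hB).1
  rw [s1] at hc
  have hM1 : (1 : ℝ) ≤ (N : ℝ) * k := by nlinarith
  have hM0 : (0 : ℝ) < (N : ℝ) * k := by linarith
  have hNM : (N : ℝ) ≤ (N : ℝ) * k := by nlinarith
  have k1 : ((2 * n : ℕ) : ℝ) ^ (4 * n) ≤ ((N : ℝ) * k) ^ (4 * n) := by
    have : ((2 * n : ℕ) : ℝ) ≤ (N : ℝ) * k := by
      have h5 : 2 * n ≤ N * k := by
        rw [hn, ← mul_assoc]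
        exact Nat.mul_le_mul (by omega) le_rfl
      exact_mod_cast h5
    gcongr
  have k2 : (2 * (10 ^ 4 * (N : ℝ) ^ 4)) ^ (2 * n) ≤ ((N : ℝ) * k) ^ (28 * n) := by
    have h5 : (2 * 10 ^ 4 : ℝ) ≤ (N : ℝ) ^ 10 := by
      calc (2 * 10 ^ 4 : ℝ) ≤ 3 ^ 10 := by norm_num
        _ ≤ (N : ℝ) ^ 10 := by gcongr
    calc (2 * (10 ^ 4 * (N : ℝ) ^ 4)) ^ (2 * n) = ((2 * 10 ^ 4) * (N : ℝ) ^ 4) ^ (2 * n) := by ring
      _ ≤ ((N : ℝ) ^ 10 * (N : ℝ) ^ 4) ^ (2 * n) := by gcongr
      _ = (N : ℝ) ^ (28 * n) := by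
          rw [← pow_add, ← pow_mul]
          congr 1
          ring
      _ ≤ ((N : ℝ) * k) ^ (28 * n) := by gcongr
  set P : ℝ := ∏ p : B × X with p.2.1 ∈ Y ∧ ws p.2.1 p.2.1.conductor p.1.1 ≠ 0,
        ‖ws p.2.1 p.2.1.conductor p.1.1‖ with hP
  have hP0 : 0 ≤ P := Finset.prod_nonneg fun p _ => norm_nonneg _
  have k3 : ∏ p : B × X with wy Y p.2.1 p.1.1 ≠ 0, ‖(k : ℂ) * wy Y p.2.1 p.1.1‖ ≤
      ((N : ℝ) * k) ^ (2 * n) * P := by
    rw [hP, Finset.prod_filter, Finset.prod_filter]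
    have h5 : ∀ p : B × X, (if wy Y p.2.1 p.1.1 ≠ 0 then ‖(k : ℂ) * wy Y p.2.1 p.1.1‖ else 1) ≤
        ((N : ℝ) * k) ^ 2 * (if p.2.1 ∈ Y ∧ ws p.2.1 p.2.1.conductor p.1.1 ≠ 0 then
          ‖ws p.2.1 p.2.1.conductor p.1.1‖ else 1) := by
      intro p
      have h6 := hco3 p.1
      by_cases h7 : p.2.1 ∈ Y ∧ ws p.2.1 p.2.1.conductor p.1.1 ≠ 0
      · have h8 : wy Y p.2.1 p.1.1 = (co p.1.1 2 - 3) * ws p.2.1 p.2.1.conductor p.1.1 := by
          unfold wy wv
          rw [if_pos h7.1]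
        rw [h8, if_pos (mul_ne_zero h6 h7.2), if_pos h7, norm_mul, norm_mul, Complex.norm_natCast,
          ← mul_assoc]
        refine mul_le_mul_of_nonneg_right ?_ (norm_nonneg _)
        have h9 := coef N hN p.1.1 _ (hsg p.1) 2
        have h10 : ‖co p.1.1 2 - 3‖ ≤ ‖co p.1.1 2‖ + ‖(3 : ℂ)‖ := norm_sub_le _ _
        have h11 : ‖(3 : ℂ)‖ = 3 := by norm_num
        have h12 : ‖co p.1.1 2‖ ≤ ((2 : ℕ) : ℝ) ^ 2 := h9
        push_cast at h12
        have h13 : ‖co p.1.1 2 - 3‖ ≤ (N : ℝ) ^ 2 := by nlinarith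
        calc (k : ℝ) * ‖co p.1.1 2 - 3‖ ≤ (k : ℝ) ^ 2 * (N : ℝ) ^ 2 :=
              mul_le_mul (by nlinarith) h13 (norm_nonneg _) (by positivity)
          _ = _ := by ring
      · rw [if_neg h7, if_neg, mul_one]
        · exact one_le_pow₀ hM1
        · intro h8
          apply h8
          unfold wy wv
          by_cases h9 : p.2.1 ∈ Y
          · rw [if_pos h9]
            have h10 : ws p.2.1 p.2.1.conductor p.1.1 = 0 := by
              by_contra h
              exact h7 ⟨h9, h⟩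
            rw [h10, mul_zero]
          · rw [if_neg h9]
    refine (Finset.prod_le_prod (fun p _ => by split_ifs <;> positivity) (fun p _ => h5 p)).trans ?_
    rw [Finset.prod_mul_distrib, Finset.prod_const, ← pow_mul, Finset.card_univ, hcard]
  have k4 : 1 / ((N : ℝ) * k) ^ (296 * n) ≤ ((N : ℝ) * k) ^ (34 * n) * P := by
    have h5 : 1 / ((N : ℝ) * k) ^ (296 * n) ≤ (1 / (N : ℝ) ^ (296 * B.card)) ^ k := by
      rw [one_div_pow, ← pow_mul]
      refine one_div_le_one_div_of_le (by positivity) ?_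
      calc (N : ℝ) ^ (296 * B.card * k) = (N : ℝ) ^ (296 * n) := by
            congr 1
            rw [hn]; ring
        _ ≤ ((N : ℝ) * k) ^ (296 * n) := by gcongr
    refine h5.trans (key.trans ?_)
    calc _ ≤ ((N : ℝ) * k) ^ (4 * n) * ((N : ℝ) * k) ^ (28 * n) * (((N : ℝ) * k) ^ (2 * n) * P) := by
          refine mul_le_mul (mul_le_mul k1 k2 (by positivity) (by positivity)) k3
            (Finset.prod_nonneg fun p _ => norm_nonneg _) (by positivity)
      _ = _ := by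
          rw [← mul_assoc, ← pow_add, ← pow_add]
          congr 2
          ring
  rw [div_le_iff₀ (by positivity)] at k4 ⊢
  calc (1 : ℝ) ≤ _ := k4
    _ = P * (((N : ℝ) * k) ^ (34 * n) * ((N : ℝ) * k) ^ (296 * n)) := by ring
    _ = _ := by
        rw [← pow_add]
        congr 2
        ring

end Pool.Agent.L5helper21.UA
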