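import Pool.Agent.H385R2.Gauss
import Pool.Agent.L5helper21.MS.Chr
import Pool.Agent.L5helper21.UA.Main
import Pool.Agent.L5helper21.UA.Gal

/-!
# The sums of the modular symbols over the residue classes modulo the conductor
-/

set_option autoImplicit false

open Complex Filter Topology Set UpperHalfPlane MatrixGroups CongruenceSubgroup ZMod

namespace Pool.Agent.L5helper21.UA

open Pool.Agent.TH940 (prim prim_deriv Fr prim_fricke mellin2)
open Pool.Agent.Y18.BSD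
open Pool.Agent.K4H13.CV
open Pool.Agent.L5helper40.AF
open Pool.Agent.L5helper21.MS
open W388.LV (SF bf pet IsNewBasis)
open Pool.Agent.W440.TW (t_twist inv_primitive gauss_ne_zero)

variable {N : ℕ} [NeZero N] {q : ℕ} [NeZero q]

/-- the residue classes prime to `c` -/
def RR (c : ℕ) : Finset ℕ := (Finset.range c).filter fun a => a.Coprime c

lemma exists_lft (q : ℕ) [NeZero q] (c a : ℕ) : ∃ u : (ZMod q)ˣ, ∀ h : c ∣ q, a.Coprime c →
    ((ZMod.unitsMap h u : (ZMod c)ˣ) : ZMod c) = (a : ZMod c) := by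
  by_cases h : c ∣ q ∧ a.Coprime c
  · obtain ⟨u, hu⟩ := ZMod.unitsMap_surjective h.1 (ZMod.unitOfCoprime a h.2)
    refine ⟨u, fun h1 h2 => ?_⟩
    rw [hu]
    rfl
  · exact ⟨1, fun h1 h2 => absurd ⟨h1, h2⟩ h⟩

/-- a unit modulo `q` with the residue class `a` modulo `c` -/
noncomputable def lft (q : ℕ) [NeZero q] (c a : ℕ) : (ZMod q)ˣ := (exists_lft q c a).choose

lemma lft_spec (q : ℕ) [NeZero q] (c a : ℕ) (h : c ∣ q) (ha : a.Coprime c) :
    ((ZMod.unitsMap h (lft q c a) : (ZMod c)ˣ) : ZMod c) = (a : ZMod c) :=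
  (exists_lft q c a).choose_spec h ha

/-- the sum -/
noncomputable def ws (χ : DirichletCharacter ℂ q) (c : ℕ) (f : Cf2 N) : ℂ :=
  ∑ a ∈ RR c, (χ (lft q c a))⁻¹ * bv f ((a : ℚ) / c)

lemma ws_eq {c : ℕ} [NeZero c] (hcq : c ∣ q) (ψ : DirichletCharacter ℂ c) (f : Cf2 N) :
    ws (DirichletCharacter.changeLevel hcq ψ) c f =
      ∑ u : (ZMod c)ˣ, ψ⁻¹ (u : ZMod c) * bv f (((u : ZMod c).val : ℚ) / c) := by
  unfold ws
  symm
  refine Finset.sum_bij (fun (u : (ZMod c)ˣ) _ => (u : ZMod c).val) ?_ ?_ ?_ ?_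
  · intro u _
    unfold RR
    rw [Finset.mem_filter, Finset.mem_range]
    exact ⟨ZMod.val_lt _, ZMod.val_coe_unit_coprime u⟩
  · intro u _ v _ h
    exact Units.ext (ZMod.val_injective c h)
  · intro a ha
    unfold RR at ha
    rw [Finset.mem_filter, Finset.mem_range] at ha
    refine ⟨ZMod.unitOfCoprime a ha.2, Finset.mem_univ _, ?_⟩
    rw [ZMod.coe_unitOfCoprime, ZMod.val_natCast, Nat.mod_eq_of_lt ha.1]
  · intro u _
    have h1 := lft_spec q c (u : ZMod c).val hcq (ZMod.val_coe_unit_coprime u)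
    have h2 : DirichletCharacter.changeLevel hcq ψ (lft q c (u : ZMod c).val) =
        ψ ((ZMod.unitsMap hcq (lft q c (u : ZMod c).val) : (ZMod c)ˣ) : ZMod c) := by
      rw [DirichletCharacter.changeLevel_eq_cast_of_dvd, ZMod.unitsMap_val]
    rw [h2, h1, ZMod.natCast_zmod_val, inv_chi]

lemma ws_conj' {c : ℕ} [NeZero c] (hcN : c.Coprime N) (ψ : DirichletCharacter ℂ c) {f : Cf2 N}
    {ε : ℝ} (hf : W388.IsNewf N 2 f ε) :
    ∑ u : (ZMod c)ˣ, (ψ⁻¹)⁻¹ (u : ZMod c) * bv f (((u : ZMod c).val : ℚ) / c) =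
      ψ ((-1 : (ZMod c)ˣ) : ZMod c) * (starRingEnd ℂ)
        (∑ u : (ZMod c)ˣ, ψ⁻¹ (u : ZMod c) * bv f (((u : ZMod c).val : ℚ) / c)) := by
  rw [inv_inv, map_sum, Finset.mul_sum, ← Equiv.sum_comp (Equiv.neg (ZMod c)ˣ)]
  refine Finset.sum_congr rfl fun u _ => ?_
  rw [map_mul, inv_chi, chi_conj_inv, ← mul_assoc, ← chi_mul]
  have e2 : (-1 : (ZMod c)ˣ) * u = (Equiv.neg (ZMod c)ˣ) u := by simp
  rw [e2]
  congr 1
  have e3 := bv_conj hf (((u : ZMod c).val : ℚ) / c)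
    (by
      have := den_ok hcN (dvd_refl c) ((u : ZMod c).val : ℤ)
      rwa [Int.cast_natCast] at this)
  rw [e3]
  have e4 := bv_congr f (NeZero.ne c) (a := (((((Equiv.neg (ZMod c)ˣ) u : (ZMod c)ˣ) : ZMod c)).val : ℤ))
    (b := -((u : ZMod c).val : ℤ)) (by
      rw [← ZMod.intCast_zmod_eq_zero_iff_dvd]
      push_cast
      rw [ZMod.natCast_zmod_val, ZMod.natCast_zmod_val]
      simp)
  push_cast at e4
  rw [e4]
  congr 1
  ring

/-- the vector of the values -/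
noncomputable def wv (χ : DirichletCharacter ℂ q) (f : Cf2 N) : ℂ :=
  (co f 2 - 3) * ws χ χ.conductor f

lemma wv_conj (hqN : q.Coprime N) (χ : DirichletCharacter ℂ q) {f : Cf2 N}
    {ε : ℝ} (hf : W388.IsNewf N 2 f ε) :
    wv χ⁻¹ f = χ ((-1 : (ZMod q)ˣ) : ZMod q) * (starRingEnd ℂ) (wv χ f) := by
  haveI : NeZero χ.conductor := ⟨DirichletCharacter.conductor_ne_zero χ⟩
  have hcq : χ.conductor ∣ q := DirichletCharacter.conductor_dvd_level χ
  have h0 : DirichletCharacter.changeLevel hcq χ.primitiveCharacter = χ :=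
    DirichletCharacter.changeLevel_primitiveCharacter χ
  have h1 := ws_eq hcq χ.primitiveCharacter f
  have h2 := ws_eq hcq (χ.primitiveCharacter)⁻¹ f
  have h3 : DirichletCharacter.changeLevel hcq (χ.primitiveCharacter)⁻¹ = χ⁻¹ := by
    rw [map_inv, h0]
  rw [h0] at h1
  rw [h3] at h2
  have h4 := ws_conj' (Nat.Coprime.coprime_dvd_left hcq hqN) χ.primitiveCharacter hf
  have h5 : χ.primitiveCharacter ((-1 : (ZMod χ.conductor)ˣ) : ZMod χ.conductor) =
      χ ((-1 : (ZMod q)ˣ) : ZMod q) := by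
    conv_rhs => rw [← h0]
    rw [DirichletCharacter.changeLevel_eq_cast_of_dvd]
    have h6 : ZMod.cast (((-1 : (ZMod q)ˣ) : ZMod q)) = (((-1 : (ZMod χ.conductor)ˣ)) : ZMod χ.conductor) := by
      rw [← ZMod.castHom_apply (R := ZMod χ.conductor) (h := hcq), Units.val_neg, Units.val_one, map_neg,
        map_one, Units.val_neg, Units.val_one]
    rw [h6]
  have e3 : (starRingEnd ℂ) (co f 2 - 3) = co f 2 - 3 := by
    rw [map_sub, co_real hf 2, Complex.conj_ofReal]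
    congr 1
    exact map_ofNat _ 3
  unfold wv
  rw [DirichletCharacter.conductor_inv, h2, h4, h1, h5, map_mul, e3]
  ring

open Classical in
/-- the values at the characters of a closed set -/
noncomputable def wy (Y : Set (DirichletCharacter ℂ q)) (χ : DirichletCharacter ℂ q) (f : Cf2 N) : ℂ :=
  if χ ∈ Y then wv χ f else 0

lemma wy_conj (hqN : q.Coprime N) (Y : Set (DirichletCharacter ℂ q)) (hY : IsClosed Y)
    (χ : DirichletCharacter ℂ q) {f : Cf2 N} {ε : ℝ} (hf : W388.IsNewf N 2 f ε) :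
    wy Y χ⁻¹ f = χ ((-1 : (ZMod q)ˣ) : ZMod q) * (starRingEnd ℂ) (wy Y χ f) := by
  unfold wy
  by_cases h : χ ∈ Y
  · rw [if_pos h, if_pos ((hY.inv χ).2 h), wv_conj hqN χ hf]
  · rw [if_neg h, if_neg (fun h' => h ((hY.inv χ).1 h')), map_zero, mul_zero]

/-- **the values are in the lattice** -/
theorem wy_mem (hN : N.Prime) (h2 : N ≠ 2) (hqN : q.Coprime N)
    (X : Subgroup (DirichletCharacter ℂ q)) [Fintype X] (Y : Set (DirichletCharacter ℂ q))
    (hY : IsClosed Y) {B : Finset (Cf2 N)} (sg : B → ℝ)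
    (hsg : ∀ f : B, W388.IsNewf N 2 f.1 (sg f)) (t : B → ℝ) (ht : t ∈ TT sg) (g : (ZMod q)ˣ) :
    (fun f : B => (t f : ℂ) * ∑ χ : X, χ.1 g * wy Y χ.1 f.1) ∈ LL B := by
  classical
  choose m hm using fun (h : (ZMod q)ˣ) (c : ℕ) => sum_cond_closed X Y hY h c
  have hD : ∀ χ : X, χ.1.conductor ∈ q.divisors := fun χ =>
    Nat.mem_divisors.2 ⟨DirichletCharacter.conductor_dvd_level χ.1, NeZero.ne q⟩
  set M : ℚ →₀ ℤ := ∑ c ∈ q.divisors, ∑ a ∈ RR c,
    Finsupp.single ((a : ℚ) / c) (m (g * (lft q c a)⁻¹) c) with hM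
  refine (congrArg (· ∈ LL B) ?_).mp (SS_mem hN h2 sg hsg t ht M)
  funext f
  congr 1
  have e1 : ∑ χ : X, χ.1 g * wy Y χ.1 f.1 = (co f.1 2 - 3) *
      ∑ χ : X, (if χ.1 ∈ Y then χ.1 g * ws χ.1 χ.1.conductor f.1 else 0) := by
    rw [Finset.mul_sum]
    refine Finset.sum_congr rfl fun χ _ => ?_
    unfold wy wv
    by_cases h : χ.1 ∈ Y
    · rw [if_pos h, if_pos h]
      ring
    · rw [if_neg h, if_neg h]
      ring
  rw [e1]
  congr 1
  have e2 : ∀ χ : X, (if χ.1 ∈ Y then χ.1 g * ws χ.1 χ.1.conductor f.1 else 0) =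
      ∑ c ∈ q.divisors, ∑ a ∈ RR c,
      (if χ.1.conductor = c ∧ χ.1 ∈ Y then χ.1 ((g * (lft q c a)⁻¹ : (ZMod q)ˣ) : ZMod q) else 0) *
        bv f.1 ((a : ℚ) / c) := by
    intro χ
    by_cases h : χ.1 ∈ Y
    · rw [if_pos h, Finset.sum_eq_single χ.1.conductor]
      · unfold ws
        rw [Finset.mul_sum]
        refine Finset.sum_congr rfl fun a _ => ?_
        rw [if_pos ⟨rfl, h⟩, chi_mul, chi_inv_unit]
        ring
      · intro c _ hc
        refine Finset.sum_eq_zero fun a _ => ?_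
        rw [if_neg (fun h' => hc h'.1.symm), zero_mul]
      · intro h'
        exact absurd (hD χ) h'
    · rw [if_neg h]
      refine (Finset.sum_eq_zero fun c _ => Finset.sum_eq_zero fun a _ => ?_).symm
      rw [if_neg (fun h' => h h'.2), zero_mul]
  simp only [e2]
  rw [Finset.sum_comm, hM, SS_finsum]
  refine Finset.sum_congr rfl fun c hc => ?_
  rw [Finset.sum_comm, SS_finsum]
  refine Finset.sum_congr rfl fun a ha => ?_
  rw [SS_single, ← Finset.sum_mul, hm]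
  congr 1
  refine ms_eq_bv hN (hsg f) _ ?_
  have := den_ok hqN (Nat.mem_divisors.1 hc).1 (a : ℤ)
  rwa [Int.cast_natCast] at this

/-- **the central values** -/
theorem wv_val : ∃ K : ℝ, 0 < K ∧ ∀ (N q : ℕ) [NeZero N] [NeZero q], N.Prime → N ≠ 2 →
    q.Coprime N → ∀ (χ : DirichletCharacter ℂ q) (f : Cf2 N) (ε : ℝ),
    W388.IsNewf N 2 f ε → ∃ L : ℂ → ℂ, IsLtw f χ L ∧
      ‖ws χ χ.conductor f‖ = Real.sqrt χ.conductor * ‖L (1 / 2)‖ ∧
      ‖L (1 / 2)‖ ≤ K * ((N : ℝ) * q) ^ 16 := by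
  obtain ⟨K, hK0, hK⟩ := exists_tw
  refine ⟨K, hK0, ?_⟩
  intro N q _ _ hN h2 hqN χ f ε hf
  have hN3 := three_le hN h2
  have hcq : χ.conductor ∣ q := DirichletCharacter.conductor_dvd_level χ
  haveI : NeZero χ.conductor := ⟨DirichletCharacter.conductor_ne_zero χ⟩
  have hcle : (χ.conductor : ℝ) ≤ q := by
    exact_mod_cast Nat.le_of_dvd (Nat.pos_of_ne_zero (NeZero.ne q)) hcq
  have hp := DirichletCharacter.primitiveCharacter_isPrimitive χ
  obtain ⟨L, hL1, hL2, hL3, hL4⟩ := hK N hN f ε hf χ.conductor χ.primitiveCharacter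
    hp (Nat.Coprime.coprime_dvd_left hcq hqN)
  refine ⟨L, ⟨hL1, hL2⟩, ?_, ?_⟩
  · have h1 := ws_eq hcq χ.primitiveCharacter f
    rw [DirichletCharacter.changeLevel_primitiveCharacter χ, ← hL3] at h1
    rw [h1, norm_mul]
    congr 1
    have h3 := H385.GaussAux.norm_sq_gaussSum (inv_primitive _ hp)
    rw [← h3, Real.sqrt_sq (norm_nonneg _)]
  · refine hL4.trans ?_
    have h3 : Real.sqrt N ≤ N := by
      rw [Real.sqrt_le_left (by linarith)]
      nlinarith
    gcongr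

end Pool.Agent.L5helper21.UA
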